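import Pool.Agent.H37.CNK.Stmts

/-! Row POI of board cnk (helper37, MP_b57703_ag): additive Hilbert 90 for an elementary abelian
group, with explicit generators; `poi_aux` is the form used in YQQ. -/

set_option autoImplicit false

namespace Pool.CND

open Finset

/-- additive Hilbert 90 for one automorphism, explicit -/
theorem poi_hilb {E : Type} [CommRing E] (p : ℕ) (σ : E ≃+* E) (θ κ : E)
    (hθ : ∑ l ∈ range p, (σ)^[l] θ = 1) (hκ : ∑ l ∈ range p, (σ)^[l] κ = 0) (S : Subring E)
    (hS : ∀ x ∈ S, σ x ∈ S) (hθS : θ ∈ S) (hκS : κ ∈ S) : ∃ w ∈ S, σ w - w = κ := by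
  have hit : ∀ x ∈ S, ∀ l : ℕ, (σ)^[l] x ∈ S := by
    intro x hx l
    induction l with
    | zero => exact hx
    | succ l ih =>
      rw [Function.iterate_succ_apply']
      exact hS _ ih
  let c : ℕ → E := fun l => ∑ j ∈ range l, (σ)^[j] κ
  have hc0 : c 0 = 0 := by simp [c]
  have hcp : c p = 0 := hκ
  have hσc : ∀ l, σ (c l) = c (l + 1) - κ := by
    intro l
    simp only [c]
    rw [map_sum, Finset.sum_range_succ']
    simp only [Function.iterate_succ_apply', Function.iterate_zero, id]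
    ring
  let g : ℕ → E := fun l => c l * (σ)^[l] θ
  have hg0 : g 0 = 0 := by simp only [g, hc0, zero_mul]
  have hgp : g p = 0 := by simp only [g, hcp, zero_mul]
  refine ⟨-∑ l ∈ range p, g l, ?_, ?_⟩
  · apply S.neg_mem
    apply S.sum_mem
    intro l _
    apply S.mul_mem
    · apply S.sum_mem
      intro j _
      exact hit κ hκS j
    · exact hit θ hθS l
  · have h1 : ∀ l, σ (g l) = g (l + 1) - κ * σ ((σ)^[l] θ) := by
      intro l
      simp only [g]
      rw [map_mul, hσc, Function.iterate_succ_apply']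
      ring
    have h2 : ∑ l ∈ range p, g (l + 1) = ∑ l ∈ range p, g l := by
      have h3 := Finset.sum_range_succ g p
      have h4 := Finset.sum_range_succ' g p
      rw [hgp, add_zero] at h3
      rw [hg0, add_zero] at h4
      rw [← h4, h3]
    have h5 : ∑ l ∈ range p, σ ((σ)^[l] θ) = 1 := by
      rw [← map_sum, hθ, map_one]
    rw [map_neg, map_sum]
    have h6 : ∑ l ∈ range p, σ (g l) = ∑ l ∈ range p, g l - κ := by
      rw [Finset.sum_congr rfl (fun l _ => h1 l), Finset.sum_sub_distrib, h2, ← Finset.mul_sum,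
        h5, mul_one]
    rw [h6]
    ring

/-- power sums over the prime field -/
theorem poi_powsum (p k : ℕ) (hp : p.Prime) (hk : k < p - 1) :
    ∑ l ∈ range p, ((l : ℕ) : ZMod p) ^ k = 0 := by
  haveI : Fact p.Prime := ⟨hp⟩
  have h1 := FiniteField.sum_pow_lt_card_sub_one (K := ZMod p) k (by rw [ZMod.card]; exact hk)
  rw [← h1]
  refine Finset.sum_nbij' (fun l => ((l : ℕ) : ZMod p)) (fun x => x.val) ?_ ?_ ?_ ?_ ?_
  · intro l _; exact Finset.mem_univ _
  · intro x _; rw [Finset.mem_range]; exact ZMod.val_lt x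
  · intro l hl
    rw [Finset.mem_range] at hl
    exact ZMod.val_natCast_of_lt hl
  · intro x _
    exact ZMod.natCast_rightInverse x
  · intro l _; rfl

theorem poi_powsum' (p : ℕ) (hp : p.Prime) :
    ∑ l ∈ range p, ((l : ℕ) : ZMod p) ^ (p - 1) = -1 := by
  haveI : Fact p.Prime := ⟨hp⟩
  obtain ⟨q, hq⟩ : ∃ q, p = q + 1 := ⟨p - 1, by have := hp.two_le; omega⟩
  have hq1 : 1 ≤ q := by have := hp.two_le; omega
  have h1 : ∑ l ∈ range p, ((l : ℕ) : ZMod p) ^ (p - 1) = ∑ l ∈ range q, (1 : ZMod p) := by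
    have h2 : range p = range (q + 1) := by rw [← hq]
    rw [h2, Finset.sum_range_succ']
    have h3 : (((0 : ℕ) : ZMod p)) ^ (p - 1) = 0 := by
      rw [Nat.cast_zero, zero_pow]
      omega
    rw [h3, add_zero]
    apply Finset.sum_congr rfl
    intro l hl
    rw [Finset.mem_range] at hl
    apply ZMod.pow_card_sub_one_eq_one
    intro h0
    rw [ZMod.natCast_eq_zero_iff] at h0
    have := Nat.le_of_dvd (by omega) h0
    omega
  rw [h1, Finset.sum_const, Finset.card_range, nsmul_eq_mul, mul_one]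
  have h4 : ((q + 1 : ℕ) : ZMod p) = 0 := by rw [← hq]; exact ZMod.natCast_self p
  push_cast at h4
  exact eq_neg_of_add_eq_zero_left h4

/-- `∑ (y + l) ^ (p - 1) = -1` in characteristic `p` -/
theorem poi_trace {E : Type} [CommRing E] (p : ℕ) [CharP E p] (hp : p.Prime) (y : E) :
    ∑ l ∈ range p, (y + (l : E)) ^ (p - 1) = -1 := by
  let φ : ZMod p →+* E := ZMod.castHom (dvd_refl p) E
  have h1 : ∀ k, k < p - 1 → ∑ l ∈ range p, (l : E) ^ k = 0 := by
    intro k hk
    have h := congrArg φ (poi_powsum p k hp hk)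
    rw [map_sum, map_zero] at h
    rw [← h]
    apply Finset.sum_congr rfl
    intro l _
    rw [map_pow, map_natCast]
  have h2 : ∑ l ∈ range p, (l : E) ^ (p - 1) = -1 := by
    have h := congrArg φ (poi_powsum' p hp)
    rw [map_sum, map_neg, map_one] at h
    rw [← h]
    apply Finset.sum_congr rfl
    intro l _
    rw [map_pow, map_natCast]
  have h3 : ∀ l ∈ range p, (y + (l : E)) ^ (p - 1) =
      ∑ k ∈ range (p - 1 + 1), (l : E) ^ k * (y ^ (p - 1 - k) * ((p - 1).choose k : E)) := by
    intro l _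
    rw [add_comm y, add_pow]
    apply Finset.sum_congr rfl
    intro k _
    ring
  rw [Finset.sum_congr rfl h3, Finset.sum_comm]
  have h4 : ∀ k ∈ range (p - 1 + 1),
      ∑ l ∈ range p, (l : E) ^ k * (y ^ (p - 1 - k) * ((p - 1).choose k : E)) =
        (∑ l ∈ range p, (l : E) ^ k) * (y ^ (p - 1 - k) * ((p - 1).choose k : E)) := by
    intro k _
    rw [Finset.sum_mul]
  rw [Finset.sum_congr rfl h4, Finset.sum_range_succ, Finset.sum_eq_zero, h2]
  · simp
  · intro k hk
    rw [h1 k (Finset.mem_range.1 hk), zero_mul]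

/-- the general form: everything in a stable subring -/
theorem poi_aux {E : Type} [CommRing E] (p : ℕ) [CharP E p] (hp : p.Prime) {ι : Type}
    [DecidableEq ι] (σ : ι → (E ≃+* E)) (y : ι → E) (T : Finset ι) :
    ∀ (S : Subring E) (κ : ι → E),
      (∀ i ∈ T, ∀ x ∈ S, σ i x ∈ S) →
      (∀ i ∈ T, ∀ j ∈ T, ∀ x ∈ S, σ i (σ j x) = σ j (σ i x)) →
      (∀ i ∈ T, ∀ x ∈ S, (σ i)^[p] x = x) →
      (∀ i ∈ T, y i ∈ S) → (∀ i ∈ T, κ i ∈ S) →
      (∀ i ∈ T, ∀ j ∈ T, σ i (y j) = y j + if i = j then 1 else 0) →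
      (∀ i ∈ T, ∑ l ∈ range p, (σ i)^[l] (κ i) = 0) →
      (∀ i ∈ T, ∀ j ∈ T, σ j (κ i) - κ i = σ i (κ j) - κ j) →
      ∃ w ∈ S, ∀ i ∈ T, σ i w - w = κ i := by
  induction T using Finset.induction_on with
  | empty =>
    intro S κ _ _ _ _ _ _ _ _
    exact ⟨0, S.zero_mem, fun i hi => absurd hi (Finset.notMem_empty i)⟩
  | insert i T hi ih =>
    intro S κ hS hcomm hpow hy hκ hσy htr hcoc
    have hiT : i ∈ insert i T := Finset.mem_insert_self i T
    have hjT : ∀ j ∈ T, j ∈ insert i T := fun j hj => Finset.mem_insert_of_mem hj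
    -- the trace one element
    have hity : ∀ l : ℕ, (σ i)^[l] (y i) = y i + (l : E) := by
      intro l
      induction l with
      | zero => simp
      | succ l ih2 =>
        rw [Function.iterate_succ_apply', ih2, map_add, map_natCast, hσy i hiT i hiT, if_pos rfl]
        push_cast
        ring
    have hitmul : ∀ (l : ℕ) (x : E), (σ i)^[l] (-(x ^ (p - 1))) = -(((σ i)^[l] x) ^ (p - 1)) := by
      intro l x
      induction l with
      | zero => rfl
      | succ l ih2 =>
        rw [Function.iterate_succ_apply', ih2, map_neg, map_pow, Function.iterate_succ_apply']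
    obtain ⟨w₁, hw₁, hw₁'⟩ := poi_hilb p (σ i) (-(y i ^ (p - 1))) (κ i) (by
      rw [Finset.sum_congr rfl (fun l _ => by rw [hitmul, hity]), Finset.sum_neg_distrib,
        poi_trace p hp, neg_neg]) (htr i hiT) S (hS i hiT)
      (S.neg_mem (S.pow_mem (hy i hiT) _)) (hκ i hiT)
    -- the subring fixed by `σ i`
    let S' : Subring E :=
      { carrier := {x | x ∈ S ∧ σ i x = x}
        mul_mem' := fun {a b} ha hb => ⟨S.mul_mem ha.1 hb.1, by rw [map_mul, ha.2, hb.2]⟩
        one_mem' := ⟨S.one_mem, map_one _⟩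
        add_mem' := fun {a b} ha hb => ⟨S.add_mem ha.1 hb.1, by rw [map_add, ha.2, hb.2]⟩
        zero_mem' := ⟨S.zero_mem, map_zero _⟩
        neg_mem' := fun {a} ha => ⟨S.neg_mem ha.1, by rw [map_neg, ha.2]⟩ }
    have hS'S : ∀ x ∈ S', x ∈ S := fun x hx => hx.1
    obtain ⟨w₂, hw₂, hw₂'⟩ := ih S' (fun j => κ j - (σ j w₁ - w₁))
      (fun j hj x hx => ⟨hS j (hjT j hj) x hx.1, by
        rw [hcomm i hiT j (hjT j hj) x hx.1, hx.2]⟩)
      (fun j hj l hl x hx => hcomm j (hjT j hj) l (hjT l hl) x hx.1)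
      (fun j hj x hx => hpow j (hjT j hj) x hx.1)
      (fun j hj => ⟨hy j (hjT j hj), by
        rw [hσy i hiT j (hjT j hj), if_neg (by rintro rfl; exact hi hj), add_zero]⟩)
      (fun j hj => by
        have hj' := hjT j hj
        refine ⟨S.sub_mem (hκ j hj') (S.sub_mem (hS j hj' _ hw₁) hw₁), ?_⟩
        have h1 := hcoc i hiT j hj'
        rw [map_sub, map_sub, hcomm i hiT j hj' w₁ hw₁]
        have h2 : σ i w₁ = w₁ + κ i := by rw [← hw₁']; ring
        rw [h2, map_add]
        linear_combination -h1)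
      (fun j hj l hl => hσy j (hjT j hj) l (hjT l hl))
      (fun j hj => by
        have hj' := hjT j hj
        have h1 : ∀ l : ℕ, (σ j)^[l] (κ j - (σ j w₁ - w₁)) =
            (σ j)^[l] (κ j) - ((σ j)^[l + 1] w₁ - (σ j)^[l] w₁) := by
          intro l
          induction l with
          | zero => rfl
          | succ l ih2 =>
            rw [Function.iterate_succ_apply', ih2, map_sub, map_sub]
            simp only [Function.iterate_succ_apply']
        rw [Finset.sum_congr rfl (fun l _ => h1 l), Finset.sum_sub_distrib, htr j hj',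
          Finset.sum_range_sub (fun l => (σ j)^[l] w₁), hpow j hj' w₁ hw₁]
        simp)
      (fun j hj l hl => by
        have hj' := hjT j hj
        have hl' := hjT l hl
        have h1 := hcoc j hj' l hl'
        have h2 := hcomm l hl' j hj' w₁ hw₁
        simp only [map_sub]
        linear_combination h1 - h2)
    refine ⟨w₁ + w₂, S.add_mem hw₁ (hS'S _ hw₂), ?_⟩
    intro j hj
    rw [Finset.mem_insert] at hj
    rcases hj with rfl | hj
    · rw [map_add, hw₂.2]
      linear_combination hw₁'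
    · have h1 := hw₂' j hj
      rw [map_add]
      linear_combination h1

theorem poi_thm : S_POI := by
  intro p m E _ _ σ y κ hp hcomm hpow hσy htr hcoc
  obtain ⟨w, -, hw⟩ := poi_aux p hp σ y Finset.univ ⊤ κ
    (fun i _ x _ => trivial) (fun i _ j _ x _ => hcomm i j x) (fun i _ x _ => hpow i x)
    (fun i _ => trivial) (fun i _ => trivial) (fun i _ j _ => hσy i j) (fun i _ => htr i)
    (fun i _ j _ => hcoc i j)
  exact ⟨w, fun i => hw i (Finset.mem_univ i)⟩

end Pool.CND
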