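import Pool.Agent.H2.CNK.POI

/-! Row YQQ of board cnk (helper37, MP_b57703_ag). -/

set_option autoImplicit false

namespace Pool.CND

open Finset

theorem yqq_wc_map (p : ℕ) {L : Type} [Field L] (σ : L ≃+* L) (a b : L) :
    σ (wc p a b) = wc p (σ a) (σ b) := by
  unfold wc
  simp only [map_neg, map_sum, map_mul, map_pow, map_natCast]

section

variable {k L G : Type} [Field k] [Field L] [Algebra k L] [Group G]

theorem yqq_iter (ρ : G →* (L ≃ₐ[k] L)) (g : G) (l : ℕ) (x : L) :
    ((ρ g).toRingEquiv)^[l] x = ρ (g ^ l) x := by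
  induction l with
  | zero => simp
  | succ l ih =>
    rw [Function.iterate_succ_apply', ih, pow_succ', map_mul]
    rfl

/-- an element of trace one for the powers of `z` -/
theorem yqq_trace_one (ρ : G →* (L ≃ₐ[k] L)) (hρ : Function.Injective ρ) (p : ℕ) (hp : p.Prime)
    (z : G) (hz : orderOf z = p) : ∃ θ : L, ∑ l ∈ range p, ρ (z ^ l) θ = 1 := by
  have hne : ∃ v : L, ∑ l ∈ range p, ρ (z ^ l) v ≠ 0 := by
    by_contra hcon
    push_neg at hcon
    let f : Fin p → (L →* L) := fun l =>
      { toFun := fun v => ρ (z ^ (l : ℕ)) v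
        map_one' := map_one _
        map_mul' := map_mul _ }
    have hf : Function.Injective f := by
      intro l m hlm
      have h1 : ρ (z ^ (l : ℕ)) = ρ (z ^ (m : ℕ)) := by
        apply AlgEquiv.ext
        intro v
        exact congrArg (fun g : L →* L => g v) hlm
      have h2 := hρ h1
      rw [pow_inj_mod, hz, Nat.mod_eq_of_lt l.2, Nat.mod_eq_of_lt m.2] at h2
      exact Fin.ext h2
    have hli := (linearIndependent_monoidHom L L).comp f hf
    rw [Fintype.linearIndependent_iff] at hli
    have h0 := hli (fun _ => 1) (by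
      funext v
      have h3 := hcon v
      rw [Finset.sum_range] at h3
      simp only [Function.comp_apply, one_smul, Finset.sum_apply, Pi.zero_apply]
      exact h3) ⟨0, hp.pos⟩
    exact one_ne_zero h0
  obtain ⟨v, hv⟩ := hne
  have hzp : z ^ p = 1 := by rw [← hz]; exact pow_orderOf_eq_one z
  have hfix1 : ρ z (∑ l ∈ range p, ρ (z ^ l) v) = ∑ l ∈ range p, ρ (z ^ l) v := by
    rw [map_sum]
    have h1 : ∀ l ∈ range p, ρ z (ρ (z ^ l) v) = ρ (z ^ (l + 1)) v := by
      intro l _
      rw [pow_succ', map_mul]; rfl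
    rw [Finset.sum_congr rfl h1]
    have h3 := Finset.sum_range_succ (fun l => ρ (z ^ l) v) p
    have h4 := Finset.sum_range_succ' (fun l => ρ (z ^ l) v) p
    rw [h3] at h4
    simp only [hzp, pow_zero] at h4
    exact (add_right_cancel h4).symm
  have hfix : ∀ l : ℕ, ρ (z ^ l) (∑ l ∈ range p, ρ (z ^ l) v) = ∑ l ∈ range p, ρ (z ^ l) v := by
    intro l
    induction l with
    | zero => rw [pow_zero, map_one]; rfl
    | succ l ih =>
      rw [pow_succ', map_mul, AlgEquiv.mul_apply, ih, hfix1]
  refine ⟨v / ∑ l ∈ range p, ρ (z ^ l) v, ?_⟩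
  have h5 : ∀ l ∈ range p, ρ (z ^ l) (v / ∑ l ∈ range p, ρ (z ^ l) v) =
      ρ (z ^ l) v / ∑ l ∈ range p, ρ (z ^ l) v := by
    intro l _
    rw [map_div₀, hfix]
  rw [Finset.sum_congr rfl h5, ← Finset.sum_div, div_self hv]

end

theorem yqq_thm (hWCA : S_WCA) : S_YQQ := by
  intro p d k L G _ _ _ _ _ _ _ ρ t P Δ z x N C₁ n y u H I
  have hp := H.cv.pr
  have hcL : CharP L p := charP_of_injective_algebraMap (algebraMap k L).injective p
  have hinj := H.cv.cov.inj
  obtain ⟨θ, hθ⟩ := yqq_trace_one ρ hinj p hp z H.oz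
  have hzp : z ^ p = 1 := by rw [← H.oz]; exact pow_orderOf_eq_one z
  -- `Y'`
  obtain ⟨Y', -, hY'⟩ := poi_hilb p (ρ z).toRingEquiv θ 1
    (by rw [← hθ]; exact Finset.sum_congr rfl (fun l _ => yqq_iter ρ z l θ))
    (by
      have h1 : ∀ l ∈ range p, ((ρ z).toRingEquiv)^[l] (1 : L) = 1 := by
        intro l _
        rw [yqq_iter, map_one]
      rw [Finset.sum_congr rfl h1, Finset.sum_const, Finset.card_range, nsmul_eq_mul, mul_one]
      exact CharP.cast_eq_zero L p) ⊤ (fun _ _ => trivial) trivial trivial
  have hzY : ρ z Y' = Y' + 1 := by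
    have h : ρ z Y' - Y' = 1 := hY'
    rw [← h]; ring
  have hzbY : ∀ b : ℕ, ρ (z ^ b) Y' = Y' + (b : L) := by
    intro b
    induction b with
    | zero => simp
    | succ b ih =>
      rw [pow_succ', map_mul, AlgEquiv.mul_apply, ih, map_add, hzY, map_natCast]
      push_cast
      ring
  have hzbfix : ∀ (v : L), ρ z v = v → ∀ b : ℕ, ρ (z ^ b) v = v := by
    intro v hv b
    induction b with
    | zero => simp
    | succ b ih => rw [pow_succ', map_mul, AlgEquiv.mul_apply, ih, hv]
  have hzn : ∀ g : G, ∀ v : L, ρ z (ρ g v) = ρ g (ρ z v) := by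
    intro g v
    rw [← AlgEquiv.mul_apply, ← map_mul, ← H.cen g, map_mul, AlgEquiv.mul_apply]
  -- powers of `z`
  have hpow : ∀ g ∈ Subgroup.zpowers z, ∃ b : ℕ, z ^ b = g := by
    intro g hg
    rw [← mem_powers_iff_mem_zpowers] at hg
    exact hg
  have hcomm : ∀ i j : Fin (d + 1), ∃ b : ℕ, n j * n i = z ^ b * (n i * n j) := by
    intro i j
    obtain ⟨b, hb⟩ := hpow _ (H.com (n j) (n i) (I.mem i))
    refine ⟨b, ?_⟩
    rw [hb]
    group
  choose b hb using hcomm
  have hzbcen : ∀ (c : ℕ) (g : G), z ^ c * g = g * z ^ c := by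
    intro c g
    induction c with
    | zero => simp
    | succ c ih =>
      rw [pow_succ, mul_assoc, ← H.cen g, ← mul_assoc, ih, mul_assoc]
  have hcommv : ∀ (i j : Fin (d + 1)) (v : L),
      ρ (n j) (ρ (n i) v) = ρ (n i) (ρ (n j) (ρ (z ^ b i j) v)) := by
    intro i j v
    have h1 : ρ (n j * n i) v = ρ ((n i * n j) * z ^ b i j) v := by
      rw [hb i j, hzbcen]
    simpa only [map_mul, AlgEquiv.mul_apply] using h1
  have hD : ∀ i j : Fin (d + 1), ρ (n j) (ρ (n i) Y') - ρ (n i) (ρ (n j) Y') = (b i j : L) := by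
    intro i j
    rw [hcommv i j Y', hzbY, map_add, map_add, map_natCast, map_natCast]
    ring
  have hanti : ∀ i j : Fin (d + 1), (b j i : L) = -(b i j : L) := by
    intro i j
    rw [← hD i j, ← hD j i]
    ring
  -- the subring of elements fixed by `z`
  let S : Subring L :=
    { carrier := {v | ρ z v = v}
      mul_mem' := fun {a b} ha hb => by
        show ρ z (a * b) = a * b
        rw [map_mul, show ρ z a = a from ha, show ρ z b = b from hb]
      one_mem' := map_one _
      add_mem' := fun {a b} ha hb => by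
        show ρ z (a + b) = a + b
        rw [map_add, show ρ z a = a from ha, show ρ z b = b from hb]
      zero_mem' := map_zero _
      neg_mem' := fun {a} ha => by
        show ρ z (-a) = -a
        rw [map_neg, show ρ z a = a from ha] }
  let σ : Fin (d + 1) → (L ≃+* L) := fun i => (ρ (n i)).toRingEquiv
  let B : Fin (d + 1) → Fin (d + 1) → ZMod p := fun i j => if i < j then (b i j : ZMod p) else 0
  let c : Fin (d + 1) → Fin (d + 1) → L := fun i j => algebraMap k L (fp k (B i j))
  have hc : ∀ i j, c i j = if i < j then (b i j : L) else 0 := by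
    intro i j
    simp only [c, B, fp]
    by_cases h : i < j
    · rw [if_pos h, if_pos h, map_natCast, map_natCast]
    · rw [if_neg h, if_neg h, map_zero, map_zero]
  have hcfix : ∀ (g : G) (i j : Fin (d + 1)), ρ g (c i j) = c i j := by
    intro g i j
    exact (ρ g).commutes _
  let Hh : Fin (d + 1) → L := fun i =>
    (if i = 0 then wc p (y 0) 1 else 0) + ∑ j, c i j * y j
  have hwcfix : ∀ g : G, ρ g (y 0) = y 0 → ρ g (wc p (y 0) 1) = wc p (y 0) 1 := by
    intro g hg
    have h1 := yqq_wc_map p (ρ g).toRingEquiv (y 0) 1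
    have h2 : (ρ g).toRingEquiv (y 0) = y 0 := hg
    rw [h2, map_one] at h1
    exact h1
  have hHz : ∀ i, ρ z (Hh i) = Hh i := by
    intro i
    simp only [Hh]
    rw [map_add, map_sum]
    congr 1
    · by_cases h : i = 0
      · rw [if_pos h]; exact hwcfix z (I.zy 0)
      · rw [if_neg h, map_zero]
    · apply Finset.sum_congr rfl
      intro j _
      rw [map_mul, hcfix, I.zy]
  have hshift : ∀ i j, i ≠ j → ρ (n j) (Hh i) = Hh i + c i j := by
    intro i j hij
    simp only [Hh]
    rw [map_add, map_sum]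
    have h1 : ρ (n j) (if i = 0 then wc p (y 0) 1 else 0) = if i = 0 then wc p (y 0) 1 else 0 := by
      by_cases h : i = 0
      · rw [if_pos h]
        apply hwcfix
        rw [I.ny, if_neg (by rintro rfl; exact hij h), add_zero]
      · rw [if_neg h, map_zero]
    have h2 : ∀ m ∈ (Finset.univ : Finset (Fin (d + 1))), ρ (n j) (c i m * y m) =
        c i m * y m + if j = m then c i m else 0 := by
      intro m _
      rw [map_mul, hcfix, I.ny]
      by_cases h : j = m
      · rw [if_pos h, if_pos h]; ring
      · rw [if_neg h, if_neg h]; ring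
    rw [h1, Finset.sum_congr rfl h2, Finset.sum_add_distrib, Finset.sum_ite_eq,
      if_pos (Finset.mem_univ _)]
    ring
  have hypow : ∀ (i : Fin (d + 1)) (l : ℕ) (j : Fin (d + 1)),
      ρ ((n i) ^ l) (y j) = y j + if i = j then (l : L) else 0 := by
    intro i l j
    induction l with
    | zero => simp
    | succ l ih =>
      rw [pow_succ', map_mul, AlgEquiv.mul_apply, ih, map_add, I.ny]
      by_cases h : i = j
      · rw [if_pos h, if_pos h, if_pos h, map_natCast]
        push_cast
        ring
      · rw [if_neg h, if_neg h, if_neg h, map_zero]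
        ring
  have hHpow : ∀ (i : Fin (d + 1)) (l : ℕ), ρ ((n i) ^ l) (Hh i) =
      (if i = 0 then wc p (y 0 + (l : L)) 1 else 0) + ∑ j, c i j * y j := by
    intro i l
    simp only [Hh]
    rw [map_add, map_sum]
    congr 1
    · by_cases h : i = 0
      · rw [if_pos h, if_pos h]
        have h1 := yqq_wc_map p (ρ ((n i) ^ l)).toRingEquiv (y 0) 1
        have h2 : (ρ ((n i) ^ l)).toRingEquiv (y 0) = y 0 + (l : L) := by
          have h3 := hypow i l 0
          rw [if_pos h] at h3
          exact h3
        rw [h2, map_one] at h1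
        exact h1
      · rw [if_neg h, if_neg h, map_zero]
    · apply Finset.sum_congr rfl
      intro j _
      rw [map_mul, hcfix, hypow]
      by_cases h : i = j
      · subst h
        rw [hc, if_neg (lt_irrefl i)]
        ring
      · rw [if_neg h, add_zero]
  let h : Fin (d + 1) → L := fun i => ρ (n i) Y' - Y'
  have hhz : ∀ i, ρ z (h i) = h i := by
    intro i
    simp only [h]
    rw [map_sub, hzn, hzY, map_add, map_one]
    ring
  obtain ⟨w, hwS, hw⟩ := poi_aux p hp σ y Finset.univ S (fun i => h i - Hh i)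
    (fun i _ v hv => by
      show ρ z (ρ (n i) v) = ρ (n i) v
      rw [hzn, show ρ z v = v from hv])
    (fun i _ j _ v hv => by
      show ρ (n i) (ρ (n j) v) = ρ (n j) (ρ (n i) v)
      rw [hcommv j i v, hzbfix v hv])
    (fun i _ v hv => by
      show ((ρ (n i)).toRingEquiv)^[p] v = v
      rw [yqq_iter]
      obtain ⟨e, he⟩ := hpow _ (H.pow (n i) (I.mem i))
      rw [← he]
      exact hzbfix v hv e)
    (fun i _ => I.zy i)
    (fun i _ => by
      show ρ z (h i - Hh i) = h i - Hh i
      rw [map_sub, hhz, hHz])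
    (fun i _ j _ => I.ny i j)
    (fun i _ => by
      have h1 : ∀ l ∈ range p, (σ i)^[l] (h i - Hh i) =
          (ρ ((n i) ^ (l + 1)) Y' - ρ ((n i) ^ l) Y') -
            ((if i = 0 then wc p (y 0 + (l : L)) 1 else 0) + ∑ j, c i j * y j) := by
        intro l _
        have h2 : (σ i)^[l] (h i - Hh i) = ρ ((n i) ^ l) (h i - Hh i) := yqq_iter ρ (n i) l _
        rw [h2, map_sub, hHpow]
        simp only [h]
        rw [map_sub, pow_succ, map_mul, AlgEquiv.mul_apply]
      rw [Finset.sum_congr rfl h1, Finset.sum_sub_distrib,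
        Finset.sum_range_sub (fun l => ρ ((n i) ^ l) Y'), Finset.sum_add_distrib,
        Finset.sum_const, Finset.card_range, nsmul_eq_mul, CharP.cast_eq_zero L p, zero_mul,
        add_zero]
      by_cases hi : i = 0
      · subst hi
        simp only [if_true]
        rw [(hWCA p L hp).2.1 (y 0), I.n0, H.xz, hzY]
        simp
      · simp only [if_neg hi]
        rw [I.np i hi]
        simp)
    (fun i _ j _ => by
      show ρ (n j) (h i - Hh i) - (h i - Hh i) = ρ (n i) (h j - Hh j) - (h j - Hh j)
      by_cases hij : i = j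
      · subst hij; rfl
      · rw [map_sub (ρ (n j)) (h i) (Hh i), map_sub (ρ (n i)) (h j) (Hh j), hshift i j hij,
          hshift j i (Ne.symm hij)]
        simp only [h]
        rw [map_sub (ρ (n j)) (ρ (n i) Y') Y', map_sub (ρ (n i)) (ρ (n j) Y') Y']
        have h1 := hD i j
        have h2 : (b i j : L) = c i j - c j i := by
          rw [hc, hc]
          rcases lt_trichotomy i j with h | h | h
          · rw [if_pos h, if_neg (lt_asymm h), sub_zero]
          · exact absurd h hij
          · rw [if_neg (lt_asymm h), if_pos h, hanti i j]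
            ring
        linear_combination h1 + h2)
  refine ⟨Y' - w, B, ?_, ?_, ?_⟩
  · rw [map_sub, hzY, show ρ z w = w from hwS]
    ring
  · intro i j hji
    simp only [B]
    rw [if_neg (not_lt.2 hji)]
  · intro i
    have h1 : ρ (n i) w - w = h i - Hh i := hw i (Finset.mem_univ i)
    have h2 : ρ (n i) Y' - Y' = h i := rfl
    rw [map_sub]
    simp only [Hh, c] at h1
    linear_combination h2 - h1

end Pool.CND
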